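import Mathlib
import Pool.Graph.R_seed8.W811.Stu.Final

/-!
# The holonomy into every band of a level with a large digit

The library constructs the holonomy into one band; here the same is done for every band.
-/

set_option autoImplicit false

namespace Pool.Agent.KS6_20.SH

open Pool.Agent Pool.Agent.W811.Stu Pool.Agent.W965.Stu.HolEx

/-- existence of the holonomy, for every band of level `n` -/
theorem holExL : ∀ lam : ℝ, 0 < lam → ∃ A : ℕ, ∀ d : ℕ → ℕ, (∀ k, 1 ≤ d k) → ∀ n, A ≤ d n →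
    ∀ u v : ℝ, u < v → (∀ e ∈ Set.Icc u v, |(orb d (lin lam e) n).y| ≤ 1 / 2) →
      (((orb d (lin lam u) n).y = -(1 / 2) ∧ (orb d (lin lam v) n).y = 1 / 2) ∨
        ((orb d (lin lam u) n).y = 1 / 2 ∧ (orb d (lin lam v) n).y = -(1 / 2))) →
      ∀ E0 ∈ Sp lam (sh d n), ∃ E1 ∈ Sp lam d, E1 ∈ Set.Icc u v ∧ Hol lam d n u v E0 E1 := by
  intro lam hlam
  have hδ0 : 0 < lam / 2 := by linarith
  have hk1 : (1 : ℝ) < 1 + (lam / 2) ^ 2 := by
    have : 0 < (lam / 2) ^ 2 := by positivity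
    linarith
  have hN0 : 0 ≤ N0 (lam / 2) 1 := by linarith [N0_ge hδ0.ne' zero_le_one hk1]
  obtain ⟨B, hB⟩ := W308.Stu.tCross (lam / 2) hδ0 (N0 (lam / 2) 1) hN0
  obtain ⟨C, hC1, hC⟩ := tBddL (lam / 2) hδ0.ne'
  refine ⟨B, ?_⟩
  intro d hd n hn u v huv hw hends E0 hE0
  have hβ1 : ∀ k, 1 ≤ sh d n k := fun k => hd _
  -- the leaves
  have step : ∀ M : ℕ, 2 ≤ M → |(orb (sh d n) (lin lam E0) M).y| ≤ 1 →
      ∃ E ∈ Set.Icc u v, Joined (lam / 2) (sh d n) M (lin lam E0) (Ga lam d n E) := by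
    intro M hM hM1
    rcases hends with ⟨hu, hv⟩ | ⟨hu, hv⟩
    · have := one lam hlam B hB tLeafEx tTwist d hd n hn u v hu hv
        (by rw [Set.uIcc_of_le huv.le]; exact hw) E0 M hM hM1
      rw [Set.uIcc_of_le huv.le] at this
      exact this
    · have := one lam hlam B hB tLeafEx tTwist d hd n hn v u hv hu
        (by rw [Set.uIcc_of_ge huv.le]; exact hw) E0 M hM hM1
      rw [Set.uIcc_of_ge huv.le] at this
      exact this
  have step2 : ∀ N : ℕ, ∃ M : ℕ, N ≤ M ∧ |(orb (sh d n) (lin lam E0) M).y| ≤ 1 ∧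
      ∃ E ∈ Set.Icc u v, Joined (lam / 2) (sh d n) M (lin lam E0) (Ga lam d n E) := by
    intro N
    rcases hE0 (N + 2) with h | h
    · exact ⟨N + 2, by omega, h, step _ (by omega) h⟩
    · exact ⟨N + 2 + 1, by omega, h, step _ (by omega) h⟩
  choose Mf hMf1 hMf2 Ef hEf1 hEf2 using step2
  obtain ⟨E1, hE1, φ, hφ, hlim⟩ := isCompact_Icc.tendsto_subseq hEf1
  have hHol : Hol lam d n u v E0 E1 := by
    intro ε hε N
    have h6 := (Metric.tendsto_atTop.1 hlim) ε hε
    obtain ⟨K, hK⟩ := h6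
    set k := max K N with hk
    refine ⟨Mf (φ k), ?_, Ef (φ k), hEf1 _, ?_, hMf2 _, hEf2 _⟩
    · exact ((le_max_right K N).trans (hφ.le_apply)).trans (hMf1 _)
    · have := hK k (le_max_left _ _)
      rw [Real.dist_eq] at this
      exact this
  refine ⟨E1, ?_, hE1, hHol⟩
  -- `E1` belongs to the spectrum
  have hbd : ∀ j, |(orb (sh d n) (Ga lam d n E1) j).y| ≤ C := by
    intro j
    by_contra hcon
    push Not at hcon
    have hcont : Continuous fun E => |(orb (sh d n) (Ga lam d n E) j).y| := by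
      have h7 := (Pool.Agent.W811.Stu.cont_orb (sh d n) j).comp (cont_q lam d (n + 1))
      simp only [Function.comp_def, ofL_toL] at h7
      exact (cont_toL_y h7).abs
    have hop := (hcont.tendsto E1).eventually (lt_mem_nhds hcon)
    rw [Metric.eventually_nhds_iff] at hop
    obtain ⟨ε, hε, hop⟩ := hop
    obtain ⟨M, hM, E, hE, hEE, hyM, g, s, t, hg, hgs, hgt⟩ := hHol ε hε (j + 1)
    have h8 := hop (show dist E E1 < ε by rw [Real.dist_eq]; exact hEE)
    have h9 := hC (sh d n) hβ1 (Ga lam d n E) ((onS_lin lam E).orb d (n + 1))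
      (by rw [← hgt]; exact hg.zz t Set.right_mem_uIcc) M (by
        rw [← hgt, hg.lev t Set.right_mem_uIcc, hgs]
        exact hyM) j (by omega)
    exact absurd h9.2.2.1 (not_le.2 h8)
  by_contra hnot
  have hesc := Pool.Agent.W308.Stu.tEsc lam hlam d hd E1 hnot
  have h10 := (Filter.tendsto_atTop.1 hesc (C + 1))
  rw [Filter.eventually_atTop] at h10
  obtain ⟨m, hm⟩ := h10
  have h11 := hm (n + 1 + m) (by omega)
  have h12 := hbd m
  have e : orb (sh d n) (Ga lam d n E1) m = orb d (lin lam E1) (n + 1 + m) := by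
    rw [orb_add]
    rfl
  rw [e] at h12
  linarith

/-- the bands of level `n` around a point of the spectrum are short -/
theorem short_band {lam : ℝ} (hlam : 0 < lam) {ε : ℝ} (hε : 0 < ε) : ∃ N : ℕ, ∀ d : ℕ → ℕ,
    (∀ k, 1 ≤ d k) → ∀ n, N ≤ n → ∀ E : ℝ, |(orb d (lin lam E) n).y| ≤ 1 →
      ∃ u v : ℝ, u < v ∧ E - ε < u ∧ v < E + ε ∧
        (∀ e ∈ Set.Icc u v, |(orb d (lin lam e) n).y| ≤ 1 / 2) ∧
        (((orb d (lin lam u) n).y = -(1 / 2) ∧ (orb d (lin lam v) n).y = 1 / 2) ∨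
          ((orb d (lin lam u) n).y = 1 / 2 ∧ (orb d (lin lam v) n).y = -(1 / 2))) := by
  have hδ : lam / 2 ≠ 0 := by positivity
  have hcc : 1 < cc (lam / 2) := one_lt_cc hδ
  obtain ⟨c0, hc0, hLB⟩ := tLB (lam / 2) 1 hδ zero_le_one hcc
  set D : ℝ := 2 * 1 * |lam| * Real.exp (2 * 1 / (cc (lam / 2) - 1)) with hD
  have hD0 : 0 ≤ D := by positivity
  obtain ⟨N, hN⟩ : ∃ N : ℕ, D / (c0 * ε) < 2 ^ N := pow_unbounded_of_one_lt _ one_lt_two
  refine ⟨2 * N + 2, fun d hd n hn E hE => ?_⟩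
  have hdist := tDist lam hlam.ne' d hd n
  obtain ⟨h1, h2⟩ := hdist.2 1 one_pos hcc
  obtain ⟨u1, v1, hu1, hv1, huv1, hin, hends⟩ := h2 E hE
  -- all points of the band are close to `E`
  have hclose : ∀ E' ∈ Set.Icc u1 v1, |E - E'| < ε := by
    intro E' hE'
    have hsub : ∀ e ∈ Set.uIcc E E', |(orb d (lin lam e) n).y| ≤ 1 := by
      intro e he
      apply hin
      exact Set.uIcc_subset_Icc ⟨hu1, hv1⟩ hE' he
    have h3 := (h1 E E' hsub).2
    have h4 := hLB d hd n (by omega) (lin lam E) (onS_lin lam E) (by simp [lin]) hE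
    have h5 : (2 : ℝ) ^ N ≤ 2 ^ (n / 2) := pow_le_pow_right₀ one_le_two (by omega)
    rw [← hD] at h3
    by_contra hcon
    push Not at hcon
    have h6 : D < ε * (c0 * 2 ^ N) := by
      rw [div_lt_iff₀ (by positivity)] at hN
      linarith
    have h7 : ε * (c0 * 2 ^ N) ≤ |E - E'| * |Vy d n (lin lam E)| := by
      apply mul_le_mul hcon _ (by positivity) (abs_nonneg _)
      exact (mul_le_mul_of_nonneg_left h5 hc0.le).trans h4
    linarith
  have hcont : Continuous fun e => (orb d (lin lam e) n).y :=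
    cont_toL_y (cont_q lam d n)
  -- a zero in the band
  obtain ⟨Ez, hEz, hEz0⟩ : ∃ Ez ∈ Set.Icc u1 v1, (orb d (lin lam Ez) n).y = 0 := by
    rcases hends with ⟨a, b⟩ | ⟨a, b⟩
    · have := intermediate_value_Icc huv1.le hcont.continuousOn
      rw [a, b] at this
      exact this ⟨by norm_num, by norm_num⟩
    · have := intermediate_value_Icc' huv1.le hcont.continuousOn
      rw [a, b] at this
      exact this ⟨by norm_num, by norm_num⟩
  obtain ⟨u, v, hu, hv, huv, hw, hends2⟩ := (hdist.2 (1 / 2) (by norm_num)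
    (by linarith)).2 Ez (by rw [hEz0]; norm_num)
  have hu1' : |(orb d (lin lam u1) n).y| = 1 := by
    rcases hends with ⟨a, b⟩ | ⟨a, b⟩ <;> rw [a] <;> norm_num
  have hv1' : |(orb d (lin lam v1) n).y| = 1 := by
    rcases hends with ⟨a, b⟩ | ⟨a, b⟩ <;> rw [b] <;> norm_num
  have hlow : u1 ≤ u := by
    by_contra hcon
    push Not at hcon
    have := hw u1 ⟨hcon.le, hEz.1.trans hv⟩
    rw [hu1'] at this
    norm_num at this
  have hupp : v ≤ v1 := by
    by_contra hcon
    push Not at hcon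
    have := hw v1 ⟨hu.trans hEz.2, hcon.le⟩
    rw [hv1'] at this
    norm_num at this
  have k1 := hclose u ⟨hlow, huv.le.trans hupp⟩
  have k2 := hclose v ⟨hlow.trans huv.le, hupp⟩
  rw [abs_lt] at k1 k2
  exact ⟨u, v, huv, by linarith [k1.2], by linarith [k2.1], hw, hends2⟩

end Pool.Agent.KS6_20.SH
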