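import Mathlib
import Pool.Graph.R_seed8.Y16.ST.Dim
import Pool.Agent.KS6_20.SH.Ex

/-!
# Local dimensions of Sturmian spectra

For typical frequencies every dimension which is monotone and does not increase under Hölder maps
with exponents near one has the same value on all open pieces of the spectrum.
-/

set_option autoImplicit false

open MeasureTheory Filter Topology Set
open scoped NNReal ENNReal

namespace Pool.Agent.KS6_20.SH

open Pool.Agent Pool.Agent.W811.Stu Pool.Agent.W965.Stu Pool.Agent.Y16.ST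

/-- Hölder maps with exponents near one of parts of `K` onto `K'` -/
def Covers (K K' : Set ℝ) : Prop := ∀ r : ℝ≥0, 0 < r → r < 1 →
  ∃ (C : ℝ≥0) (g : ℝ → ℝ) (Q : Set ℝ), Q ⊆ K ∧ g '' Q = K' ∧ HolderOnWith C r g Q

/-- small pieces of the spectrum can be mapped onto the spectrum for the remaining digits -/
theorem copies {lam : ℝ} (hlam : 0 < lam) : ∃ A : ℕ, ∀ d : ℕ → ℕ, (∀ k, 1 ≤ d k) → SubExp d →
    ∀ E : ℝ, ∀ ε : ℝ, 0 < ε → ∃ N : ℕ, ∀ n, N ≤ n → A ≤ d n → |(orb d (lin lam E) n).y| ≤ 1 →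
      ∃ K : Set ℝ, IsCompact K ∧ K ⊆ Sp lam d ∩ Ioo (E - ε) (E + ε) ∧
        Covers K (Sp lam (sh d n)) := by
  obtain ⟨A, hA⟩ := holExL lam hlam
  refine ⟨A, fun d hd hg E ε hε => ?_⟩
  obtain ⟨N, hN⟩ := short_band hlam hε
  refine ⟨N, fun n hn hAn hE => ?_⟩
  obtain ⟨u, v, huv, hu, hv, hw, hends⟩ := hN d hd n hn E hE
  have hEx := hA d hd n hAn u v huv hw hends
  have hW : Win lam d n u v := ⟨huv, hw⟩
  refine ⟨Sp lam d ∩ Icc u v, (Sp_compact W308.Stu.tBdd hlam hd).inter_right isClosed_Icc, ?_, ?_⟩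
  · rintro x ⟨hx, hx2⟩
    exact ⟨hx, by linarith [hx2.1], by linarith [hx2.2]⟩
  intro r hr0 hr1
  obtain ⟨C, hC, hH⟩ := tHolS lam hlam d n hd hg u v hW r (by exact_mod_cast hr0)
    (by exact_mod_cast hr1)
  choose! f hf using hEx
  have hinj : Set.InjOn f (Sp lam (sh d n)) := by
    intro a ha b hb hab
    have h := hH a ha b hb (f a) (f b) (hf a ha).2.2 (hf b hb).2.2
    rw [hab, sub_self, abs_zero, Real.zero_rpow (by
      have : (0 : ℝ) < r := by exact_mod_cast hr0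
      exact this.ne'), mul_zero] at h
    have h3 : |a - b| = 0 := le_antisymm h (abs_nonneg _)
    rw [abs_eq_zero, sub_eq_zero] at h3
    exact h3
  refine ⟨C.toNNReal, Function.invFunOn f (Sp lam (sh d n)), f '' Sp lam (sh d n), ?_, ?_, ?_⟩
  · rintro _ ⟨a, ha, rfl⟩
    exact ⟨(hf a ha).1, (hf a ha).2.1⟩
  · rw [Set.image_image]
    apply Set.Subset.antisymm
    · rintro _ ⟨a, ha, rfl⟩
      simp only
      rw [hinj.leftInvOn_invFunOn ha]
      exact ha
    · intro a ha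
      exact ⟨a, ha, hinj.leftInvOn_invFunOn ha⟩
  · rintro _ ⟨a, ha, rfl⟩ _ ⟨b, hb, rfl⟩
    rw [hinj.leftInvOn_invFunOn ha, hinj.leftInvOn_invFunOn hb]
    have h := hH a ha b hb (f a) (f b) (hf a ha).2.2 (hf b hb).2.2
    rw [edist_dist, edist_dist, Real.dist_eq, Real.dist_eq]
    rw [ENNReal.ofReal_rpow_of_nonneg (abs_nonneg _) (NNReal.coe_nonneg r)]
    have e : ((C.toNNReal : ℝ≥0) : ENNReal) = ENNReal.ofReal C := rfl
    rw [e, ← ENNReal.ofReal_mul hC.le]
    exact ENNReal.ofReal_le_ofReal h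

/-- dimensions which are monotone and do not increase under Hölder maps -/
structure DimLike {L : Type} [Preorder L] (F : Set ℝ → L) : Prop where
  mono : ∀ A B : Set ℝ, A ⊆ B → Bornology.IsBounded B → F A ≤ F B
  hold : ∀ K K' : Set ℝ, IsCompact K → Covers K K' → F K' ≤ F K

lemma sh_eq (d : ℕ → ℕ) (n : ℕ) : (fun k => sh d n (0 + 1 + k)) = sh d (n + 1) := by
  funext k
  unfold sh
  congr 1
  omega

/-- after a large digit the dimension can only become smaller -/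
theorem semiF {lam : ℝ} (hlam : 0 < lam) : ∃ A : ℕ, ∀ (L : Type) (_ : Preorder L)
    (F : Set ℝ → L), DimLike F → ∀ d : ℕ → ℕ, (∀ k, 1 ≤ d k) → SubExp d → ∀ n, A ≤ d n →
      F (Sp lam (sh d n)) ≤ F (Sp lam d) := by
  obtain ⟨A, hA⟩ := keyS lam hlam
  refine ⟨A, fun L _ F hF d hd hg n hn => ?_⟩
  apply hF.hold _ _ (Sp_compact W308.Stu.tBdd hlam hd)
  intro r hr0 hr1
  exact hA d hd n hn hg r hr0 hr1

/-- **All local dimensions agree.** -/
theorem loc_const {lam : ℝ} (hlam : 0 < lam) {μ : Measure ℝ} (hμ : Typical μ)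
    {L : Type} [CompleteLinearOrder L] [TopologicalSpace L] [OrderTopology L]
    [DenselyOrdered L] [TopologicalSpace.SeparableSpace L] (F : Set ℝ → L) (hF : DimLike F)
    (hM : ∀ t, MeasurableSet {α : ℝ | Irrational α ∧ α ∈ Ioo (0:ℝ) 1 ∧ t ≤ F (Sp lam (dig α))}) :
    ∃ c : L, ∀ᵐ α ∂μ, ∀ J : Set ℝ, IsOpen J → (Sp lam (dig α) ∩ J).Nonempty →
      F (Sp lam (dig α) ∩ J) = c := by
  obtain ⟨A1, hA1⟩ := semiF hlam
  obtain ⟨A2, hA2⟩ := copies hlam
  set A : ℕ := max A1 A2 with hAdef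
  have hsemi : ∀ᵐ α ∂μ, ∀ n, A ≤ dig α n → F (Sp lam (dig (gauss^[n + 1] α))) ≤
      F (Sp lam (dig α)) := by
    filter_upwards [hμ.base, hμ.growth] with α h1 h2 n hn
    have hd : ∀ k, 1 ≤ dig α k := fun k => dig_pos h1.1 h1.2.1 h1.2.2 k
    rw [← sh_dig]
    exact hA1 L inferInstance F hF (dig α) hd h2 n ((le_max_left _ _).trans hn)
  obtain ⟨c, hc⟩ := zero_oneT hμ (fun α => F (Sp lam (dig α))) hM A hsemi
  refine ⟨c, ?_⟩
  by_cases h0 : μ = 0
  · rw [h0]; simp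
  set S : Set ℝ := {α : ℝ | Irrational α ∧ α ∈ Ioo (0:ℝ) 1 ∧ c ≤ F (Sp lam (dig α))} with hS
  have hS0 : μ S ≠ 0 := by
    intro h
    apply h0
    have h1 : ∀ᵐ α ∂μ, α ∉ S := measure_eq_zero_iff_ae_notMem.1 h
    have h2 : ∀ᵐ α ∂μ, False := by
      filter_upwards [h1, hμ.base, hc] with α a b e
      exact a ⟨b.1, b.2, e.ge⟩
    rwa [eventually_false_iff_eq_bot, ae_eq_bot] at h2
  have m1 := measurable_pre (hM c) A
  have p1 := hμ.large A _ (hM c) hS0
  have m2 := measurable_pre m1 A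
  have p2 := hμ.large A _ m1 p1
  filter_upwards [hμ.visit_io m2 p2, hμ.base, hμ.growth, hc] with α hio hb hg hcα J hJ hne
  have hd : ∀ k, 1 ≤ dig α k := fun k => dig_pos hb.1 hb.2.1 hb.2.2 k
  have hcpt := Sp_compact W308.Stu.tBdd hlam hd
  apply le_antisymm
  · rw [← hcα]
    exact hF.mono _ _ inter_subset_left hcpt.isBounded
  obtain ⟨E, hE, hEJ⟩ := hne
  obtain ⟨ε, hε, hball⟩ := Metric.isOpen_iff.1 hJ E hEJ
  obtain ⟨N, hN⟩ := hA2 (dig α) hd hg E ε hε
  obtain ⟨n, hn, hD⟩ := (frequently_atTop.1 hio) N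
  have q1 : A ≤ dig α n := hD.1
  have q2 : A ≤ dig α (n + 1) := by
    have h7 : A ≤ dig (gauss (gauss^[n] α)) 0 := hD.2.1
    rw [← Function.iterate_succ_apply' gauss n α] at h7
    exact h7
  have q3 : c ≤ F (Sp lam (sh (dig α) (n + 1))) := by
    have h7 : c ≤ F (Sp lam (dig (gauss (gauss (gauss^[n] α))))) := hD.2.2.2.2
    rw [← Function.iterate_succ_apply' gauss n α,
      ← Function.iterate_succ_apply' gauss (n + 1) α] at h7
    have e : sh (dig α) (n + 1) = dig (gauss^[n + 1 + 1] α) := sh_dig α (n + 1)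
    rw [e]
    exact h7
  have q4 : c ≤ F (Sp lam (sh (dig α) n)) := by
    refine q3.trans ?_
    have h8 := hA1 L inferInstance F hF (sh (dig α) n) (fun k => hd _) (hg.sh n) 0 (by
      have : sh (dig α) n 0 = dig α (n + 1) := rfl
      rw [this]
      exact (le_max_left _ _).trans q2)
    have e : sh (sh (dig α) n) 0 = sh (dig α) (n + 1) := by
      funext k
      show dig α (n + 1 + (0 + 1 + k)) = dig α (n + 1 + 1 + k)
      congr 1
      omega
    rw [e] at h8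
    exact h8
  have hbd : Bornology.IsBounded (Sp lam (dig α) ∩ J) := hcpt.isBounded.subset inter_subset_left
  have fin : ∀ m, N ≤ m → A ≤ dig α m → |(orb (dig α) (lin lam E) m).y| ≤ 1 →
      F (Sp lam (sh (dig α) m)) ≤ F (Sp lam (dig α) ∩ J) := by
    intro m hm hAm hy
    obtain ⟨K, hK1, hK2, hK3⟩ := hN m hm ((le_max_right _ _).trans hAm) hy
    refine (hF.hold K _ hK1 hK3).trans (hF.mono _ _ ?_ hbd)
    intro x hx
    obtain ⟨h1, h2⟩ := hK2 hx
    refine ⟨h1, hball ?_⟩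
    rw [Metric.mem_ball, Real.dist_eq, abs_lt]
    constructor
    · linarith [h2.1]
    · linarith [h2.2]
  rcases hE n with hy | hy
  · exact q4.trans (fin n hn q1 hy)
  · exact q3.trans (fin (n + 1) (by omega) q2 hy)

end Pool.Agent.KS6_20.SH
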