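import Mathlib
import Pool.Agent.KS6_20.SH.Loc

/-!
# Lower box dimension and packing dimension
-/

set_option autoImplicit false

open MeasureTheory Filter Topology Set
open scoped NNReal ENNReal

namespace Pool.Agent.KS6_20.SH

open Pool.Agent Pool.Agent.W811.Stu Pool.Agent.W965.Stu Pool.Agent.Y16.ST

/-! ### bounded sets -/

lemma covN_exists {K : Set ℝ} (hK : Bornology.IsBounded K) {ε : ℝ} (hε : 0 < ε) :
    ∃ t : Finset ℝ, t.card = covN K ε ∧ K ⊆ ⋃ x ∈ t, Icc (x - ε) (x + ε) := by
  have h1 : IsCompact (closure K) := hK.isCompact_closure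
  obtain ⟨t, -, ht⟩ := covN_spec h1 hε
  exact Nat.sInf_mem (s := {N : ℕ | ∃ t : Finset ℝ, t.card = N ∧
    K ⊆ ⋃ x ∈ t, Icc (x - ε) (x + ε)}) ⟨t.card, t, rfl, subset_closure.trans ht⟩

lemma covN_mono {A B : Set ℝ} (h : A ⊆ B) (hB : Bornology.IsBounded B) {ε : ℝ} (hε : 0 < ε) :
    covN A ε ≤ covN B ε := by
  obtain ⟨t, ht, hc⟩ := covN_exists hB hε
  rw [← ht]
  exact covN_le t (h.trans hc)

lemma covN_closure (K : Set ℝ) (ε : ℝ) : covN (closure K) ε = covN K ε := by
  unfold covN
  congr 1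
  ext N
  constructor
  · rintro ⟨t, ht, hc⟩
    exact ⟨t, ht, subset_closure.trans hc⟩
  · rintro ⟨t, ht, hc⟩
    refine ⟨t, ht, closure_minimal hc ?_⟩
    exact t.finite_toSet.isClosed_biUnion fun x _ => isClosed_Icc

lemma ubox_closure (K : Set ℝ) : ubox (closure K) = ubox K := by
  unfold ubox
  simp only [covN_closure]

lemma FN_mono {A B : Set ℝ} (h : A ⊆ B) (hB : Bornology.IsBounded B) :
    ∀ᶠ ε : ℝ in 𝓝[>] 0, ((FN A ε : ℝ) : EReal) ≤ ((FN B ε : ℝ) : EReal) := by
  filter_upwards [small_ev] with ε hε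
  have h1 := log_mono_nat (covN_mono h hB hε.1)
  rw [EReal.coe_le_coe_iff]
  exact div_le_div_of_nonneg_right h1 (log_pos' hε).le

/-! ### the lower box dimension -/

/-- lower box dimension of a bounded set -/
noncomputable def lbox (K : Set ℝ) : EReal :=
  liminf (fun ε : ℝ => ((Real.log (covN K ε) / Real.log (1 / ε) : ℝ) : EReal))
    (nhdsWithin 0 (Set.Ioi 0))

lemma lbox_eq (K : Set ℝ) : lbox K = liminf (fun ε : ℝ => ((FN K ε : ℝ) : EReal)) (𝓝[>] 0) := rfl

lemma lbox_le_ubox (K : Set ℝ) : lbox K ≤ ubox K := by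
  rw [lbox_eq, ubox_eq]
  exact liminf_le_limsup

lemma lbox_nonneg (K : Set ℝ) : 0 ≤ lbox K := by
  rw [lbox_eq]
  apply le_liminf_of_le
  · isBoundedDefault
  · filter_upwards [small_ev] with ε hε
    exact_mod_cast FN_nonneg K hε

/-- comparison of lower limits -/
lemma liminf_compare {ι κ : Type} {l : Filter ι} {m : Filter κ} [m.NeBot] (u : ι → ℝ)
    (v : κ → ℝ) (hv : ∀ᶠ k in m, 0 ≤ v k)
    (h : ∀ c : ℝ, 1 < c → ∃ ψ : κ → ι, Tendsto ψ m l ∧ ∀ᶠ k in m, u (ψ k) ≤ c * v k) :
    liminf (fun i => (u i : EReal)) l ≤ liminf (fun k => (v k : EReal)) m := by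
  apply EReal.le_of_forall_lt_iff_le.1
  intro z hz
  obtain ⟨s, hs1, hs2⟩ := EReal.lt_iff_exists_real_btwn.1 hz
  have hs2' : s < z := by exact_mod_cast hs2
  have h1 : ∃ᶠ k in m, (v k : EReal) < s := frequently_lt_of_liminf_lt (by isBoundedDefault) hs1
  have hs0 : 0 < s := by
    obtain ⟨k, a, b⟩ := (h1.and_eventually hv).exists
    have : v k < s := by exact_mod_cast a
    linarith
  obtain ⟨ψ, hψ, hu⟩ := h (z / s) ((one_lt_div hs0).2 hs2')
  have h2 : ∃ᶠ k in m, (u (ψ k) : EReal) ≤ z := by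
    refine (h1.and_eventually (hu.and hv)).mono ?_
    rintro k ⟨a, b, c⟩
    have a' : v k < s := by exact_mod_cast a
    have hzs : 0 < z / s := by
      have : 0 < z := hs0.trans hs2'
      positivity
    have d : u (ψ k) ≤ z := by
      calc u (ψ k) ≤ z / s * v k := b
        _ ≤ z / s * s := mul_le_mul_of_nonneg_left a'.le hzs.le
        _ = z := by field_simp
    exact_mod_cast d
  exact liminf_le_of_frequently_le (hψ.frequently h2) (by isBoundedDefault)

/-- **Hölder maps with exponents near one do not increase the lower box dimension.** -/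
theorem lbox_le_of_holder {K K' : Set ℝ} (hK : IsCompact K) (h : Covers K K') :
    lbox K' ≤ lbox K := by
  rw [lbox_eq, lbox_eq]
  apply liminf_compare
  · filter_upwards [small_ev] with ε hε
    exact FN_nonneg K hε
  intro c hc
  have hc0 : 0 < 2 / (1 + c) := by positivity
  have hc1 : 2 / (1 + c) < 1 := by
    rw [div_lt_one (by positivity)]
    linarith
  set r : ℝ≥0 := ⟨2 / (1 + c), hc0.le⟩ with hr
  have hrr : (r : ℝ) = 2 / (1 + c) := rfl
  have hr0 : (0 : ℝ) < r := hc0
  obtain ⟨C, g, Q, a1, a2, a3⟩ := h r hc0 hc1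
  set C' : ℝ := max C 1 with hC'
  have hC'1 : 1 ≤ C' := le_max_right _ _
  have hC'0 : 0 < C' := by linarith
  set ψ : ℝ → ℝ := fun ε => C' * (2 * ε) ^ (r : ℝ) with hψ
  have hψpos : ∀ ε, 0 < ε → 0 < ψ ε := by
    intro ε hε
    simp only [hψ]
    positivity
  have hlogψ : ∀ ε, 0 < ε → Real.log (1 / ψ ε) =
      (r : ℝ) * Real.log (1 / ε) - ((r : ℝ) * Real.log 2 + Real.log C') := by
    intro ε hε
    simp only [hψ]
    rw [one_div, Real.log_inv, Real.log_mul hC'0.ne' (by positivity),
      Real.log_rpow (by positivity), Real.log_mul two_ne_zero hε.ne', one_div, Real.log_inv]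
    ring
  refine ⟨ψ, ?_, ?_⟩
  · have h1 : Tendsto ψ (𝓝 0) (𝓝 (ψ 0)) := by
      apply Continuous.tendsto
      simp only [hψ]
      exact continuous_const.mul
        ((continuous_const.mul continuous_id).rpow_const (fun x => Or.inr hr0.le))
    have h2 : ψ 0 = 0 := by
      simp only [hψ]
      rw [mul_zero, Real.zero_rpow hr0.ne', mul_zero]
    rw [h2] at h1
    rw [tendsto_nhdsWithin_iff]
    refine ⟨h1.mono_left nhdsWithin_le_nhds, ?_⟩
    filter_upwards [self_mem_nhdsWithin] with ε hε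
    exact hψpos ε hε
  · have hcr : 0 < c * (r : ℝ) - 1 := by
      rw [hrr]
      have : c * (2 / (1 + c)) - 1 = (c - 1) / (1 + c) := by
        field_simp
        ring
      rw [this]
      apply div_pos <;> linarith
    have hev := log_tendsto.eventually_ge_atTop
      ((c * ((r : ℝ) * Real.log 2 + Real.log C')) / (c * (r : ℝ) - 1))
    filter_upwards [small_ev, hev] with ε hε hε2
    have hL := log_pos' hε
    rw [div_le_iff₀ hcr] at hε2
    have h5 : Real.log (1 / ε) ≤ c * Real.log (1 / ψ ε) := by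
      rw [hlogψ ε hε.1]
      nlinarith
    have h6 : covN K' (ψ ε) ≤ covN K ε := by
      rw [← a2]
      apply covN_image hK a1 a3 hε.1
      exact mul_le_mul_of_nonneg_right (le_max_left _ _) (Real.rpow_nonneg (by linarith [hε.1]) _)
    have h7 := log_mono_nat h6
    have h8 : 0 < Real.log (1 / ψ ε) := by
      by_contra hcon
      push Not at hcon
      nlinarith
    unfold FN
    rw [mul_div_assoc', div_le_div_iff₀ h8 hL]
    have h9 : 0 ≤ Real.log (covN K' (ψ ε)) := Real.log_natCast_nonneg _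
    calc Real.log (covN K' (ψ ε)) * Real.log (1 / ε)
        ≤ Real.log (covN K' (ψ ε)) * (c * Real.log (1 / ψ ε)) := mul_le_mul_of_nonneg_left h5 h9
      _ ≤ Real.log (covN K ε) * (c * Real.log (1 / ψ ε)) :=
          mul_le_mul_of_nonneg_right h7 (by positivity)
      _ = c * Real.log (covN K ε) * Real.log (1 / ψ ε) := by ring

theorem lbox_seq {K : Set ℝ} (hK : IsCompact K) :
    lbox K = liminf (fun j : ℕ => ((FQ K j : ℝ) : EReal)) atTop := by
  have hl2 : 0 < Real.log 2 := Real.log_pos one_lt_two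
  rw [lbox_eq]
  apply le_antisymm
  · apply liminf_compare
    · filter_upwards with j
      exact FQ_nonneg K j
    intro c hc
    refine ⟨fun j => (1 / 2 : ℝ) ^ j, ?_, ?_⟩
    · rw [tendsto_nhdsWithin_iff]
      constructor
      · exact tendsto_pow_atTop_nhds_zero_of_lt_one (by norm_num) (by norm_num)
      · filter_upwards with j
        exact mem_Ioi.2 (by positivity)
    · filter_upwards [eventually_ge_atTop 1] with j hj
      have hj0 : (0 : ℝ) < j := by exact_mod_cast hj
      have h6 := log_mono_nat (covN_le_covQ hK (show (0 : ℝ) < (1 / 2) ^ j by positivity) le_rfl)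
      have hlog : Real.log (1 / (1 / 2 : ℝ) ^ j) = j * Real.log 2 := by
        rw [one_div, Real.log_inv, Real.log_pow, one_div, Real.log_inv]
        ring
      unfold FN FQ
      rw [hlog, mul_div_assoc']
      apply div_le_div_of_nonneg_right _ (by positivity)
      have h9 : 0 ≤ Real.log (covQ K ((1 / 2 : ℝ) ^ j)) := Real.log_natCast_nonneg _
      nlinarith
  · apply liminf_compare
    · filter_upwards [small_ev] with ε hε
      exact FN_nonneg K hε
    intro c hc
    refine ⟨fun ε => ⌈Real.log (1 / ε) / Real.log 2⌉₊ - 1, ?_, ?_⟩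
    · exact (tendsto_sub_atTop_nat 1).comp
        (tendsto_nat_ceil_atTop.comp (log_tendsto.atTop_div_const hl2))
    · have hev := log_tendsto.eventually_ge_atTop (c * Real.log 2 / (c - 1))
      filter_upwards [small_ev, hev] with ε hε hε2
      have hL := log_pos' hε
      set L := Real.log (1 / ε) with hLdef
      set j := ⌈L / Real.log 2⌉₊ with hj
      have hj1 : L / Real.log 2 ≤ j := Nat.le_ceil _
      have hj2 : (j : ℝ) < L / Real.log 2 + 1 := Nat.ceil_lt_add_one (by positivity)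
      have hj0 : 1 ≤ j := by
        rw [hj, Nat.one_le_ceil_iff]
        positivity
      rw [div_le_iff₀ hl2] at hj1
      rw [div_le_iff₀ (by linarith)] at hε2
      have hcast : ((j - 1 : ℕ) : ℝ) = (j : ℝ) - 1 := by
        rw [Nat.cast_sub hj0, Nat.cast_one]
      have e1 : ((j - 1 : ℕ) : ℝ) * Real.log 2 < L := by
        rw [hcast]
        have : (j : ℝ) * Real.log 2 < (L / Real.log 2 + 1) * Real.log 2 :=
          mul_lt_mul_of_pos_right hj2 hl2
        have e2 : (L / Real.log 2 + 1) * Real.log 2 = L + Real.log 2 := by field_simp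
        linarith
      have e3 : L ≤ c * (((j - 1 : ℕ) : ℝ) * Real.log 2) := by
        rw [hcast]
        nlinarith
      have hjpos : 0 < ((j - 1 : ℕ) : ℝ) * Real.log 2 := by
        by_contra hcon
        push Not at hcon
        nlinarith
      have hlt : ε < (1 / 2 : ℝ) ^ (j - 1) := by
        have e4 : Real.log ε < Real.log ((1 / 2 : ℝ) ^ (j - 1)) := by
          rw [Real.log_pow, one_div, Real.log_inv]
          have e5 : L = -Real.log ε := by rw [hLdef, one_div, Real.log_inv]
          linarith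
        exact (Real.log_lt_log_iff hε.1 (by positivity)).1 e4
      have h6 := log_mono_nat (covQ_le_covN hK hε.1 hlt)
      unfold FN FQ
      rw [mul_div_assoc', ← hLdef, div_le_div_iff₀ hjpos hL]
      have h9 : 0 ≤ Real.log (covQ K ((1 / 2 : ℝ) ^ (j - 1))) := Real.log_natCast_nonneg _
      calc Real.log (covQ K ((1 / 2 : ℝ) ^ (j - 1))) * L
          ≤ Real.log (covQ K ((1 / 2 : ℝ) ^ (j - 1))) * (c * (((j - 1 : ℕ) : ℝ) * Real.log 2)) :=
            mul_le_mul_of_nonneg_left e3 h9
        _ ≤ Real.log (covN K ε) * (c * (((j - 1 : ℕ) : ℝ) * Real.log 2)) :=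
            mul_le_mul_of_nonneg_right h6 (by positivity)
        _ = c * Real.log (covN K ε) * (((j - 1 : ℕ) : ℝ) * Real.log 2) := by ring

open Classical in
theorem meas_lbox {lam : ℝ} (hlam : 0 < lam) (t : EReal) :
    MeasurableSet {α : ℝ | Irrational α ∧ α ∈ Ioo (0:ℝ) 1 ∧ t ≤ lbox (Sp lam (dig α))} := by
  have hB := W308.Stu.tBdd
  obtain ⟨R, hR⟩ := exists_R hB hlam
  set G : Set ℝ := {α : ℝ | Irrational α ∧ α ∈ Ioo (0:ℝ) 1} with hG
  have hGm : MeasurableSet G := W340.SD.measurable_base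
  have hdp : ∀ α ∈ G, ∀ k, 1 ≤ dig α k := fun α h k => dig_pos h.1 h.2.1 h.2.2 k
  -- covering numbers are measurable
  have hcov : ∀ ε : ℝ, 0 < ε →
      Measurable (fun α => if α ∈ G then covQ (Sp lam (dig α)) ε else 0) := by
    intro ε hε
    apply measurable_of_Iic
    intro N
    have h1 : (fun α => if α ∈ G then covQ (Sp lam (dig α)) ε else 0) ⁻¹' Iic N =
        Gᶜ ∪ ⋃ (t : Finset ℚ) (_ : t.card ≤ N), {α : ℝ | Irrational α ∧ α ∈ Ioo (0:ℝ) 1 ∧
          (⋂ n, CC lam R n (dig α)) ⊆ ⋃ x ∈ t, Ioo ((x : ℝ) - ε) (x + ε)} := by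
      ext α
      simp only [mem_preimage, mem_Iic, mem_union, mem_compl_iff, mem_iUnion]
      constructor
      · intro h
        by_cases hα : α ∈ G
        · right
          rw [if_pos hα] at h
          obtain ⟨t, ht, hc⟩ := covQ_spec (Sp_compact hB hlam (hdp α hα)) hε
          refine ⟨t, by omega, hα.1, hα.2, ?_⟩
          rw [← hR _ (hdp α hα)]
          exact hc
        · left; exact hα
      · rintro (h | ⟨t, ht, h1, h2, h3⟩)
        · rw [if_neg h]; exact Nat.zero_le _
        · have hα : α ∈ G := ⟨h1, h2⟩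
          rw [if_pos hα]
          rw [← hR _ (hdp α hα)] at h3
          exact (covQ_le t h3).trans ht
    rw [h1]
    refine hGm.compl.union (MeasurableSet.iUnion fun t => MeasurableSet.iUnion fun _ => ?_)
    exact W340.SD.meas_subset (CC lam R) (CC_compact lam R) (CC_anti lam R) (CC_congr lam R) _
      (isOpen_biUnion fun x _ => isOpen_Ioo)
  have hF : ∀ j : ℕ, Measurable (fun α => (((Real.log ((if α ∈ G then
      covQ (Sp lam (dig α)) ((1 / 2 : ℝ) ^ j) else 0 : ℕ) : ℝ)) / (j * Real.log 2) : ℝ) : EReal)) := by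
    intro j
    have h2 : Measurable (fun N : ℕ => ((Real.log (N : ℝ) / (j * Real.log 2) : ℝ) : EReal)) :=
      measurable_from_nat
    exact h2.comp (hcov _ (by positivity))
  have hL := Measurable.liminf hF
  have h3 : {α : ℝ | Irrational α ∧ α ∈ Ioo (0:ℝ) 1 ∧ t ≤ lbox (Sp lam (dig α))} =
      G ∩ {α | t ≤ liminf (fun j : ℕ => (((Real.log ((if α ∈ G then
      covQ (Sp lam (dig α)) ((1 / 2 : ℝ) ^ j) else 0 : ℕ) : ℝ)) / (j * Real.log 2) : ℝ) : EReal))
        atTop} := by
    ext α
    constructor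
    · rintro ⟨a, b, c⟩
      have hα : α ∈ G := ⟨a, b⟩
      refine ⟨hα, ?_⟩
      rw [lbox_seq (Sp_compact hB hlam (hdp α hα))] at c
      change t ≤ liminf _ _
      simp only [if_pos hα]
      exact c
    · rintro ⟨hα, c⟩
      refine ⟨hα.1, hα.2, ?_⟩
      rw [lbox_seq (Sp_compact hB hlam (hdp α hα))]
      change t ≤ liminf _ _ at c
      simp only [if_pos hα] at c
      exact c
  rw [h3]
  exact hGm.inter (hL measurableSet_Ici)

/-! ### the three dimensions -/

theorem dimLike_dimH : DimLike (fun K : Set ℝ => dimH K) where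
  mono := fun _ _ h _ => dimH_mono h
  hold := fun _ _ _ h => dimH_le_of_holder h

theorem dimLike_ubox : DimLike ubox where
  mono := fun A B h hB => by
    rw [ubox_eq, ubox_eq]
    exact limsup_le_limsup (FN_mono h hB) (by isBoundedDefault) (by isBoundedDefault)
  hold := fun _ _ hK h => ubox_le_of_holder hK h

theorem dimLike_lbox : DimLike lbox where
  mono := fun A B h hB => by
    rw [lbox_eq, lbox_eq]
    exact liminf_le_liminf (FN_mono h hB) (by isBoundedDefault) (by isBoundedDefault)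
  hold := fun _ _ hK h => lbox_le_of_holder hK h

/-! ### the packing dimension -/

/-- packing dimension, as modified upper box dimension -/
noncomputable def pack (K : Set ℝ) : EReal :=
  ⨅ (F : ℕ → Set ℝ) (_ : K ⊆ ⋃ i, F i) (_ : ∀ i, Bornology.IsBounded (F i)), ⨆ i, ubox (F i)

theorem pack_eq {K : Set ℝ} (hK : IsCompact K) {c : EReal}
    (h : ∀ J : Set ℝ, IsOpen J → (K ∩ J).Nonempty → ubox (K ∩ J) = c) :
    ∀ J : Set ℝ, IsOpen J → (K ∩ J).Nonempty → pack (K ∩ J) = c := by
  intro J hJ hne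
  apply le_antisymm
  · unfold pack
    refine iInf_le_of_le (fun _ : ℕ => K ∩ J) ?_
    refine iInf_le_of_le (fun x hx => mem_iUnion.2 ⟨0, hx⟩) ?_
    refine iInf_le_of_le (fun _ => hK.isBounded.subset inter_subset_left) ?_
    exact iSup_le fun _ => (h J hJ hne).le
  refine le_iInf fun F => le_iInf fun hcov => le_iInf fun hbd => ?_
  obtain ⟨E, hE, hEJ⟩ := hne
  obtain ⟨ε, hε, hball⟩ := Metric.isOpen_iff.1 hJ E hEJ
  set K1 : Set ℝ := closure (K ∩ Metric.ball E (ε / 2)) with hK1
  have hK1K : K1 ⊆ K := closure_minimal inter_subset_left hK.isClosed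
  have hK1J : K1 ⊆ J := by
    refine subset_trans ?_ hball
    refine (closure_mono inter_subset_right).trans ?_
    refine Metric.closure_ball_subset_closedBall.trans ?_
    exact Metric.closedBall_subset_ball (by linarith)
  have hK1c : IsCompact K1 := hK.of_isClosed_subset isClosed_closure hK1K
  have : CompactSpace K1 := isCompact_iff_compactSpace.1 hK1c
  have : Nonempty K1 := ⟨⟨E, subset_closure ⟨hE, Metric.mem_ball_self (by positivity)⟩⟩⟩
  have hclosed : ∀ i, IsClosed {x : K1 | (x : ℝ) ∈ closure (F i)} := fun i =>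
    isClosed_closure.preimage continuous_subtype_val
  have hU : ⋃ i, {x : K1 | (x : ℝ) ∈ closure (F i)} = univ := by
    rw [eq_univ_iff_forall]
    rintro ⟨x, hx⟩
    obtain ⟨i, hi⟩ := mem_iUnion.1 (hcov ⟨hK1K hx, hK1J hx⟩)
    exact mem_iUnion.2 ⟨i, subset_closure hi⟩
  obtain ⟨i, x0, hx0⟩ := nonempty_interior_of_iUnion_of_closed hclosed hU
  obtain ⟨V, hVsub, hVo, hxV⟩ := mem_interior.1 hx0
  obtain ⟨U, hUo, rfl⟩ := isOpen_induced_iff.1 hVo
  have hxU : (x0 : ℝ) ∈ U := hxV
  obtain ⟨y, hyU, hyK⟩ := mem_closure_iff.1 x0.2 U hUo hxU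
  have hsub : K ∩ (U ∩ Metric.ball E (ε / 2)) ⊆ closure (F i) := by
    rintro z ⟨hz1, hz2, hz3⟩
    have hz : z ∈ K1 := subset_closure ⟨hz1, hz3⟩
    exact hVsub (show (⟨z, hz⟩ : K1) ∈ Subtype.val ⁻¹' U from hz2)
  have h1 := h (U ∩ Metric.ball E (ε / 2)) (hUo.inter Metric.isOpen_ball)
    ⟨y, hyK.1, hyU, hyK.2⟩
  rw [← h1]
  refine (dimLike_ubox.mono _ _ hsub (hbd i).closure).trans ?_
  rw [ubox_closure]
  exact le_iSup (fun i => ubox (F i)) i

end Pool.Agent.KS6_20.SH
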