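import Mathlib
import Pool.Agent.KS6_20.SH.Box

/-!
# The Hausdorff dimension is at most the lower box dimension
-/

set_option autoImplicit false

open MeasureTheory Filter Topology Set
open scoped NNReal ENNReal

namespace Pool.Agent.KS6_20.SH

open Pool.Agent Pool.Agent.W811.Stu Pool.Agent.W965.Stu Pool.Agent.Y16.ST

theorem dimH_le_of_lbox {K : Set ℝ} (hK : Bornology.IsBounded K) {s : ℝ≥0}
    (hs : lbox K < ((s : ℝ) : EReal)) : dimH K ≤ s := by
  obtain ⟨s', hs1, hs2⟩ := EReal.lt_iff_exists_real_btwn.1 hs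
  have hs2' : s' < (s : ℝ) := by exact_mod_cast hs2
  rw [lbox_eq] at hs1
  have hfr : ∃ᶠ ε : ℝ in 𝓝[>] 0, ((FN K ε : ℝ) : EReal) < s' :=
    frequently_lt_of_liminf_lt (by isBoundedDefault) hs1
  -- minimal coverings
  have hcov : ∀ ε : ℝ, ∃ t : Finset ℝ, 0 < ε → t.card = covN K ε ∧
      K ⊆ ⋃ x ∈ t, Icc (x - ε) (x + ε) := by
    intro ε
    by_cases h : 0 < ε
    · obtain ⟨t, ht⟩ := covN_exists hK h
      exact ⟨t, fun _ => ht⟩
    · exact ⟨∅, fun h2 => absurd h2 h⟩
  choose T hT using hcov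
  have hle := MeasureTheory.Measure.hausdorffMeasure_le_liminf_sum (X := ℝ) (s : ℝ) K
    (l := 𝓝[>] (0 : ℝ)) (ι := fun ε => {x : ℝ // x ∈ T ε})
    (fun ε => ENNReal.ofReal (2 * ε)) (by
      have h1 : Tendsto (fun ε : ℝ => 2 * ε) (𝓝[>] 0) (𝓝 0) := by
        have : Tendsto (fun ε : ℝ => 2 * ε) (𝓝 0) (𝓝 (2 * 0)) :=
          (continuous_const.mul continuous_id).tendsto 0
        rw [mul_zero] at this
        exact this.mono_left nhdsWithin_le_nhds
      have h2 := ENNReal.tendsto_ofReal h1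
      rwa [ENNReal.ofReal_zero] at h2)
    (fun ε x => Icc ((x : ℝ) - ε) (x + ε)) (by
      filter_upwards [self_mem_nhdsWithin] with ε hε x
      rw [Real.ediam_Icc]
      apply ENNReal.ofReal_le_ofReal
      linarith) (by
      filter_upwards [self_mem_nhdsWithin] with ε hε y hy
      obtain ⟨x, hx, hx2⟩ := mem_iUnion₂.1 ((hT ε hε).2 hy)
      exact mem_iUnion.2 ⟨⟨x, hx⟩, hx2⟩)
  apply dimH_le_of_hausdorffMeasure_ne_top
  refine ne_top_of_le_ne_top (ENNReal.ofReal_ne_top (r := (2 : ℝ) ^ (s : ℝ))) (hle.trans ?_)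
  apply liminf_le_of_frequently_le _ (by isBoundedDefault)
  refine (hfr.and_eventually small_ev).mono ?_
  rintro ε ⟨h1, h2⟩
  have h1' : FN K ε < s' := by exact_mod_cast h1
  have hL := log_pos' h2
  have h3 : Real.log (covN K ε) ≤ (s : ℝ) * Real.log (1 / ε) := by
    unfold FN at h1'
    rw [div_lt_iff₀ hL] at h1'
    nlinarith
  have h4 : (covN K ε : ℝ) * (2 * ε) ^ (s : ℝ) ≤ 2 ^ (s : ℝ) := by
    rcases Nat.eq_zero_or_pos (covN K ε) with h0 | h0
    · rw [h0, Nat.cast_zero, zero_mul]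
      positivity
    · have h5 : (covN K ε : ℝ) ≤ (1 / ε) ^ (s : ℝ) := by
        have h6 : (0 : ℝ) < covN K ε := by exact_mod_cast h0
        rw [← Real.log_le_log_iff h6 (Real.rpow_pos_of_pos (by have := h2.1; positivity) _),
          Real.log_rpow (by have := h2.1; positivity)]
        exact h3
      calc (covN K ε : ℝ) * (2 * ε) ^ (s : ℝ) ≤ (1 / ε) ^ (s : ℝ) * (2 * ε) ^ (s : ℝ) :=
            mul_le_mul_of_nonneg_right h5 (Real.rpow_nonneg (by linarith [h2.1]) _)
        _ = 2 ^ (s : ℝ) := by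
            rw [← Real.mul_rpow (by have := h2.1; positivity) (by linarith [h2.1])]
            congr 1
            have := h2.1.ne'
            field_simp
  have h7 : ∀ x : {x : ℝ // x ∈ T ε},
      Metric.ediam (Icc ((x : ℝ) - ε) (x + ε)) ^ (s : ℝ) = ENNReal.ofReal ((2 * ε) ^ (s : ℝ)) := by
    intro x
    rw [Real.ediam_Icc, ENNReal.ofReal_rpow_of_nonneg (by linarith [h2.1]) s.coe_nonneg]
    congr 2
    ring
  rw [Finset.sum_congr rfl fun x _ => h7 x, Finset.sum_const, Finset.card_univ, Fintype.card_coe,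
    (hT ε h2.1).1, nsmul_eq_mul, ← ENNReal.ofReal_natCast,
    ← ENNReal.ofReal_mul (Nat.cast_nonneg _)]
  exact ENNReal.ofReal_le_ofReal h4

end Pool.Agent.KS6_20.SH
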