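import Mathlib
import Pool.Graph.R_seed8.Y16.ST.Iid
import Pool.Agent.KS6_20.SH.Haus

/-!
# Dimensional homogeneity of Sturmian spectra: assembly
-/

set_option autoImplicit false

open MeasureTheory Filter Topology Set
open scoped NNReal ENNReal

namespace Pool.Agent.KS6_20.SH

open Pool.Agent Pool.Agent.W811.Stu Pool.Agent.W965.Stu Pool.Agent.Y16.ST
open Pool.Agent.H695R3.ST Pool.Agent.Helper434.PSCplx

/-- the spectrum of a Sturmian operator is not empty -/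
theorem Sp_nonempty {lam : ℝ} (hlam : 0 < lam) {α : ℝ} (hα : Irrational α) (hI : α ∈ Ioo (0:ℝ) 1)
    (hf : ∃ᶠ k in atTop, 3 ≤ dig α k ∧ 3 ≤ dig α (k + 1)) : (Sp lam (dig α)).Nonempty := by
  obtain ⟨T, hT, hs⟩ := exists_schr (pot_bound hlam.le α 0)
  rw [← spec_eq hlam hα hI hf 0 T hT]
  have hne : Nontrivial (L2 →L[ℂ] L2) := by
    have h1 : Nontrivial L2 := by
      refine ⟨⟨lp.single 2 (0 : ℤ) (1 : ℂ), 0, fun h => ?_⟩⟩
      have h2 := congrArg (fun u : L2 => (u : ℤ → ℂ) 0) h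
      simp at h2
    infer_instance
  obtain ⟨z, hz⟩ := spectrum.nonempty T
  refine ⟨z.re, ?_⟩
  have h3 := hs.mem_spectrum_eq_re hz
  show ((z.re : ℝ) : ℂ) ∈ spectrum ℂ T
  rw [← h3]
  exact hz

/-- **Homogeneity of the spectra for typical frequencies.** -/
theorem hom {lam : ℝ} (hlam : 0 < lam) {μ : Measure ℝ} (hμ : Typical μ) :
    ∃ cH cL cB : ℝ, 0 ≤ cH ∧ cH ≤ cL ∧ cL ≤ cB ∧ cB ≤ 1 ∧
      ∀ᵐ α ∂μ, (Sp lam (dig α)).Nonempty ∧ ∀ J : Set ℝ, IsOpen J →
        (Sp lam (dig α) ∩ J).Nonempty →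
        dimH (Sp lam (dig α) ∩ J) = ENNReal.ofReal cH ∧ lbox (Sp lam (dig α) ∩ J) = (cL : EReal) ∧
          ubox (Sp lam (dig α) ∩ J) = (cB : EReal) ∧ pack (Sp lam (dig α) ∩ J) = (cB : EReal) := by
  by_cases h0 : μ = 0
  · exact ⟨0, 0, 0, le_rfl, le_rfl, le_rfl, zero_le_one, by rw [h0]; simp⟩
  obtain ⟨dH, hH⟩ := loc_const hlam hμ (fun K : Set ℝ => dimH K) dimLike_dimH (meas_dimH hlam)
  obtain ⟨dL, hL⟩ := loc_const hlam hμ lbox dimLike_lbox (meas_lbox hlam)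
  obtain ⟨dB, hB⟩ := loc_const hlam hμ ubox dimLike_ubox (meas_ubox W308.Stu.tBdd hlam)
  have hne : ∀ᵐ α ∂μ, (Sp lam (dig α)).Nonempty := by
    filter_upwards [hμ.base, hμ.freq3] with α h1 h2
    exact Sp_nonempty hlam h1.1 h1.2 h2
  have hbase := hμ.base
  have : (ae μ).NeBot := ae_neBot.2 h0
  obtain ⟨α0, h1, h2, h3, h4, h5⟩ := (hH.and (hL.and (hB.and (hne.and hbase)))).exists
  have g1 := h1 univ isOpen_univ (by rwa [inter_univ])
  have g2 := h2 univ isOpen_univ (by rwa [inter_univ])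
  have g3 := h3 univ isOpen_univ (by rwa [inter_univ])
  simp only [inter_univ] at g1 g2 g3
  set K := Sp lam (dig α0) with hK
  obtain ⟨C, hC⟩ := W308.Stu.tBdd lam hlam
  have hd : ∀ k, 1 ≤ dig α0 k := fun k => dig_pos h5.1 h5.2.1 h5.2.2 k
  have hR : ∀ E ∈ K, |E| ≤ 2 * C := by
    intro E hE
    have h1 := (hC (dig α0) hd E hE 0).2.1
    have h2 : (orb (dig α0) (lin lam E) 0).y = E / 2 := rfl
    rw [h2, abs_div, abs_two] at h1
    linarith
  have hbd : Bornology.IsBounded K := (Sp_compact W308.Stu.tBdd hlam hd).isBounded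
  have hC0 : 0 ≤ max (2 * C) 0 := le_max_right _ _
  have kH : dH ≤ 1 := by rw [← g1]; exact dimH_le_one _
  have kB1 : dB ≤ 1 := by
    rw [← g3]
    exact ubox_le_one hC0 (fun E hE => (hR E hE).trans (le_max_left _ _))
  have kLB : dL ≤ dB := by rw [← g2, ← g3]; exact lbox_le_ubox K
  have kL0 : 0 ≤ dL := by rw [← g2]; exact lbox_nonneg _
  have kLt : dL ≠ ⊤ := by
    intro h
    rw [h] at kLB
    exact absurd (kLB.trans kB1) (by decide)
  have kLb : dL ≠ ⊥ := by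
    intro h
    rw [h] at kL0
    exact absurd kL0 (by simp)
  have kBt : dB ≠ ⊤ := by
    intro h
    rw [h] at kB1
    exact absurd kB1 (by decide)
  have kBb : dB ≠ ⊥ := by
    intro h
    rw [h] at kLB
    exact absurd (kL0.trans kLB) (by simp)
  have kHt : dH ≠ ⊤ := ne_top_of_le_ne_top (by norm_num) kH
  have kHL : dH.toReal ≤ dL.toReal := by
    apply le_of_forall_gt_imp_ge_of_dense
    intro s hs
    have hs0 : 0 ≤ s := (EReal.toReal_nonneg kL0).trans hs.le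
    have h6 : lbox K < (((⟨s, hs0⟩ : ℝ≥0) : ℝ) : EReal) := by
      rw [g2, ← EReal.coe_toReal kLt kLb]
      exact_mod_cast hs
    have h7 := dimH_le_of_lbox hbd h6
    rw [g1] at h7
    have h8 := ENNReal.toReal_mono ENNReal.coe_ne_top h7
    exact h8
  refine ⟨dH.toReal, dL.toReal, dB.toReal, ENNReal.toReal_nonneg, kHL,
    EReal.toReal_le_toReal kLB kLb kBt, ?_, ?_⟩
  · have := EReal.toReal_le_toReal kB1 kBb (by decide)
    simpa using this
  · filter_upwards [hH, hL, hB, hne, hbase] with α a1 a2 a3 a4 a5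
    have hcpt := Sp_compact W308.Stu.tBdd hlam (fun k => dig_pos a5.1 a5.2.1 a5.2.2 k)
    refine ⟨a4, fun J hJ hJn => ⟨?_, ?_, ?_, ?_⟩⟩
    · rw [ENNReal.ofReal_toReal kHt]
      exact a1 J hJ hJn
    · rw [EReal.coe_toReal kLt kLb]
      exact a2 J hJ hJn
    · rw [EReal.coe_toReal kBt kBb]
      exact a3 J hJ hJn
    · rw [EReal.coe_toReal kBt kBb]
      exact pack_eq hcpt a3 J hJ hJn

end Pool.Agent.KS6_20.SH
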